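import Pool.Agent.W31.LD.Defs

set_option autoImplicit false

namespace Pool.Agent.W509.LD

open W31LD

theorem le_top (A : Finset ℕ) {x y : ℕ} (hx : x ∈ A) (hy : y ∈ A) : dst x y ≤ top A := by
  unfold top
  exact Finset.le_sup (f := fun p : ℕ × ℕ => dst p.1 p.2) (Finset.mk_mem_product hx hy)

theorem exists_top (hB : T_Bits) (A : Finset ℕ) (h : 2 ≤ A.card) :
    ∃ x ∈ A, ∃ y ∈ A, x ≠ y ∧ dst x y = top A := by
  obtain ⟨u, hu, v, hv, huv⟩ := Finset.one_lt_card.1 (by omega : 1 < A.card)
  have hne : (A ×ˢ A).Nonempty := ⟨(u, v), Finset.mk_mem_product hu hv⟩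
  obtain ⟨p, hp, hp2⟩ := Finset.exists_mem_eq_sup (A ×ˢ A) hne (fun p => dst p.1 p.2)
  rw [Finset.mem_product] at hp
  have h1 : dst u v ≤ top A := le_top A hu hv
  have h2 : 0 < dst u v := hB.2.2.1 u v huv
  have h3 : top A = dst p.1 p.2 := hp2
  refine ⟨p.1, hp.1, p.2, hp.2, ?_, h3.symm⟩
  intro h4
  rw [h4, hB.2.1] at h3
  omega

theorem top_pos (hB : T_Bits) (A : Finset ℕ) (h : 2 ≤ A.card) : 0 < top A := by
  obtain ⟨x, _, y, _, hxy, h1⟩ := exists_top hB A h
  rw [← h1]
  exact hB.2.2.1 x y hxy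

/-- the set of heights -/
def hts (S : Finset ℕ) : Finset ℕ :=
  ((S ×ˢ S).filter (fun p => p.1 ≠ p.2)).image (fun p => dst p.1 p.2 - 1)

theorem mem_hts (S : Finset ℕ) (u : ℕ) :
    u ∈ hts S ↔ ∃ x ∈ S, ∃ y ∈ S, x ≠ y ∧ dst x y - 1 = u := by
  unfold hts
  simp only [Finset.mem_image, Finset.mem_filter, Finset.mem_product, Prod.exists]
  constructor
  · rintro ⟨x, y, ⟨⟨hx, hy⟩, hxy⟩, h⟩
    exact ⟨x, hx, y, hy, hxy, h⟩
  · rintro ⟨x, hx, y, hy, hxy, h⟩
    exact ⟨x, y, ⟨⟨hx, hy⟩, hxy⟩, h⟩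

theorem top_pair (hB : T_Bits) (x y : ℕ) : top {x, y} = dst x y := by
  apply le_antisymm
  · unfold top
    apply Finset.sup_le
    rintro ⟨a, b⟩ hp
    simp only [Finset.mem_product, Finset.mem_insert, Finset.mem_singleton] at hp
    obtain ⟨ha | ha, hb | hb⟩ := hp
    · subst ha; subst hb
      rw [hB.2.1]
      exact Nat.zero_le _
    · subst ha; subst hb
      exact le_rfl
    · subst ha; subst hb
      exact (hB.1 _ _).le
    · subst ha; subst hb
      rw [hB.2.1]
      exact Nat.zero_le _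
  · exact le_top _ (by simp) (by simp)

theorem cross (hB : T_Bits) (hSp : T_Split) (S : Finset ℕ) {x y : ℕ} (hx : x ∈ lo S)
    (hy : y ∈ hi S) : dst x y = top S := by
  have hxS := lo_subset S hx
  have hyS := hi_subset S hy
  have h1 : ({x, y} : Finset ℕ) ⊆ S := by
    intro z hz
    simp only [Finset.mem_insert, Finset.mem_singleton] at hz
    rcases hz with rfl | rfl
    · exact hxS
    · exact hyS
  have h2 := (hSp.2.2.2.2.2.1 S {x, y} h1 ⟨x, Finset.mem_inter.2 ⟨by simp, hx⟩⟩
    ⟨y, Finset.mem_inter.2 ⟨by simp, hy⟩⟩).1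
  rw [← h2, top_pair hB]

theorem mem_lo_or_hi (S : Finset ℕ) {x : ℕ} (hx : x ∈ S) : x ∈ lo S ∨ x ∈ hi S := by
  by_cases h : x ∈ lo S
  · exact Or.inl h
  · right
    unfold hi
    exact Finset.mem_sdiff.2 ⟨hx, h⟩

theorem hts_card (hB : T_Bits) (hSp : T_Split) : ∀ (k : ℕ) (S : Finset ℕ), S.card = k →
    (hts S).card ≤ S.card - 1 := by
  intro k
  induction k using Nat.strong_induction_on with
  | _ k ih =>
    intro S hS
    by_cases h : 2 ≤ S.card
    · obtain ⟨hl, hh⟩ := hSp.1 S h
      have hl1 := Finset.card_pos.2 hl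
      have hh1 := Finset.card_pos.2 hh
      have hsum := card_lo_add_card_hi S
      have i1 := ih (lo S).card (by omega) (lo S) rfl
      have i2 := ih (hi S).card (by omega) (hi S) rfl
      have hsub : hts S ⊆ insert (top S - 1) (hts (lo S) ∪ hts (hi S)) := by
        intro u hu
        obtain ⟨x, hx, y, hy, hxy, rfl⟩ := (mem_hts S u).1 hu
        rw [Finset.mem_insert, Finset.mem_union, mem_hts, mem_hts]
        rcases mem_lo_or_hi S hx with h1 | h1
        · rcases mem_lo_or_hi S hy with h2 | h2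
          · right; left
            exact ⟨x, h1, y, h2, hxy, rfl⟩
          · left
            rw [cross hB hSp S h1 h2]
        · rcases mem_lo_or_hi S hy with h2 | h2
          · left
            rw [hB.1 x y, cross hB hSp S h2 h1]
          · right; right
            exact ⟨x, h1, y, h2, hxy, rfl⟩
      have c1 := Finset.card_le_card hsub
      have c2 := Finset.card_insert_le (top S - 1) (hts (lo S) ∪ hts (hi S))
      have c3 := Finset.card_union_le (hts (lo S)) (hts (hi S))
      omega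
    · have h0 : hts S = ∅ := by
        rw [Finset.eq_empty_iff_forall_notMem]
        intro u hu
        obtain ⟨x, hx, y, hy, hxy, _⟩ := (mem_hts S u).1 hu
        exact hxy (Finset.card_le_one.1 (by omega) x hx y hy)
      rw [h0]
      simp

/-! ### Relabelling -/

theorem cod_pos (nx : Finset ℕ → ℕ) (H A : Finset ℕ) (h : (lo A).Nonempty ∧ (hi A).Nonempty) :
    cod nx H A = if (lo A).card = 1 then cod nx (insert (top A - 1) H) (hi A)
    else if (hi A).card = 1 then cod nx (insert (top A - 1) H) (lo A)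
    else Nat.pair 1 (Nat.pair (nx H)
      (Nat.pair (Nat.pair (lo A).card (cod nx ∅ (lo A)))
        (Nat.pair (hi A).card (cod nx ∅ (hi A))))) := by
  conv_lhs => rw [cod]
  rw [dif_pos h]

theorem cod_neg (nx : Finset ℕ → ℕ) (H A : Finset ℕ) (h : ¬ ((lo A).Nonempty ∧ (hi A).Nonempty)) :
    cod nx H A = Nat.pair 0 (Nat.pair A.card (nx H)) := by
  conv_lhs => rw [cod]
  rw [dif_neg h]

section relabel

variable (S U : Finset ℕ) (e η : ℕ → ℕ)

theorem relabel (hB : T_Bits) (hSp : T_Split) (nx : Finset ℕ → ℕ)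
    (he : ∀ x ∈ S, ∀ y ∈ S, x < y → e x < e y) (hη : ∀ x ∈ U, ∀ y ∈ U, x < y → η x < η y)
    (hd : ∀ x ∈ S, ∀ y ∈ S, x ≠ y → dst x y - 1 ∈ U ∧ dst (e x) (e y) - 1 = η (dst x y - 1))
    (hnx : ∀ L : Finset ℕ, L ⊆ U → nx (L.image η) = nx L) :
    ∀ (k : ℕ) (A : Finset ℕ), A.card = k → A ⊆ S → ∀ H : Finset ℕ, H ⊆ U →
      cod nx (H.image η) (A.image e) = cod nx H A := by
  have hinj : ∀ x ∈ S, ∀ y ∈ S, e x = e y → x = y := by
    intro x hx y hy h
    rcases lt_trichotomy x y with h1 | h1 | h1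
    · have := he x hx y hy h1; omega
    · exact h1
    · have := he y hy x hx h1; omega
  have hle : ∀ x ∈ S, ∀ y ∈ S, (e x ≤ e y ↔ x ≤ y) := by
    intro x hx y hy
    constructor
    · intro h
      by_contra h1
      have := he y hy x hx (by omega)
      omega
    · intro h
      rcases Nat.lt_or_eq_of_le h with h1 | h1
      · exact (he x hx y hy h1).le
      · rw [h1]
  have hηlt : ∀ x ∈ U, ∀ y ∈ U, (η x < η y ↔ x < y) := by
    intro x hx y hy
    constructor
    · intro h
      by_contra h1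
      rcases Nat.lt_or_eq_of_le (not_lt.1 h1) with h2 | h2
      · have := hη y hy x hx h2; omega
      · rw [h2] at h; omega
    · exact hη x hx y hy
  intro k
  induction k using Nat.strong_induction_on with
  | _ k ih =>
    intro A hA hAS H hH
    have hcard : (A.image e).card = A.card :=
      Finset.card_image_of_injOn (fun x hx y hy h => hinj x (hAS hx) y (hAS hy) h)
    by_cases h : 2 ≤ A.card
    · obtain ⟨hl, hh⟩ := hSp.1 A h
      have h' : 2 ≤ (A.image e).card := by omega
      obtain ⟨hl', hh'⟩ := hSp.1 (A.image e) h'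
      have htp := top_pos hB A h
      obtain ⟨x0, hx0, y0, hy0, hxy0, htop0⟩ := exists_top hB A h
      have htU : top A - 1 ∈ U := by
        rw [← htop0]
        exact (hd x0 (hAS hx0) y0 (hAS hy0) hxy0).1
      -- the top
      have htop : top (A.image e) = η (top A - 1) + 1 := by
        apply le_antisymm
        · unfold top
          apply Finset.sup_le
          rintro ⟨a, b⟩ hp
          simp only [Finset.mem_product, Finset.mem_image] at hp
          obtain ⟨⟨x, hx, rfl⟩, ⟨y, hy, rfl⟩⟩ := hp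
          by_cases hxy : x = y
          · subst hxy
            simp only [hB.2.1]
            exact Nat.zero_le _
          · obtain ⟨h1, h2⟩ := hd x (hAS hx) y (hAS hy) hxy
            have h3 : dst x y ≤ top A := le_top A hx hy
            have h4 : η (dst x y - 1) ≤ η (top A - 1) := by
              by_contra h5
              have := (hηlt _ htU _ h1).1 (not_le.1 h5)
              omega
            change dst (e x) (e y) ≤ _
            change _ ≤ η (top A - 1) at h4
            have h6 : dst (e x) (e y) ≤ η (top A - 1) + 1 := by omega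
            exact h6
        · have h1 := (hd x0 (hAS hx0) y0 (hAS hy0) hxy0).2
          rw [htop0] at h1
          have h2 : e x0 ≠ e y0 := fun h3 => hxy0 (hinj x0 (hAS hx0) y0 (hAS hy0) h3)
          have h3 := hB.2.2.1 (e x0) (e y0) h2
          have h4 : dst (e x0) (e y0) ≤ top (A.image e) :=
            le_top _ (Finset.mem_image_of_mem e hx0) (Finset.mem_image_of_mem e hy0)
          omega
      -- the lower half
      have hlo : lo (A.image e) = (lo A).image e := by
        ext z
        unfold lo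
        simp only [Finset.mem_filter, Finset.mem_image]
        constructor
        · rintro ⟨⟨x, hx, rfl⟩, h1⟩
          refine ⟨x, ⟨hx, ?_⟩, rfl⟩
          intro y hy hyx
          by_cases hne : y = x
          · subst hne
            rw [hB.2.1]
            exact htp
          · have h2 := h1 (e y) ⟨y, hy, rfl⟩ ((hle y (hAS hy) x (hAS hx)).2 hyx)
            rw [htop] at h2
            obtain ⟨h3, h4⟩ := hd y (hAS hy) x (hAS hx) hne
            have h5 : η (dst y x - 1) < η (top A - 1) := by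
              have h6 := hB.2.2.1 (e y) (e x) (fun h => hne (hinj y (hAS hy) x (hAS hx) h))
              omega
            have h7 := (hηlt _ h3 _ htU).1 h5
            omega
        · rintro ⟨x, ⟨hx, h1⟩, rfl⟩
          refine ⟨⟨x, hx, rfl⟩, ?_⟩
          rintro _ ⟨y, hy, rfl⟩ hyx
          by_cases hne : y = x
          · subst hne
            rw [hB.2.1]
            omega
          · have h2 := h1 y hy ((hle y (hAS hy) x (hAS hx)).1 hyx)
            obtain ⟨h3, h4⟩ := hd y (hAS hy) x (hAS hx) hne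
            have h6 := hB.2.2.1 y x hne
            have h5 : η (dst y x - 1) < η (top A - 1) := (hηlt _ h3 _ htU).2 (by omega)
            rw [htop]
            omega
      have hhi : hi (A.image e) = (hi A).image e := by
        unfold hi
        rw [hlo]
        ext z
        simp only [Finset.mem_sdiff, Finset.mem_image]
        constructor
        · rintro ⟨⟨x, hx, rfl⟩, h1⟩
          exact ⟨x, ⟨hx, fun h2 => h1 ⟨x, h2, rfl⟩⟩, rfl⟩
        · rintro ⟨x, ⟨hx, h1⟩, rfl⟩
          refine ⟨⟨x, hx, rfl⟩, ?_⟩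
          rintro ⟨y, hy, h2⟩
          have := hinj y (hAS (lo_subset A hy)) x (hAS hx) h2
          subst this
          exact h1 hy
      have hloS : lo A ⊆ S := (lo_subset A).trans hAS
      have hhiS : hi A ⊆ S := (hi_subset A).trans hAS
      have hcl : ((lo A).image e).card = (lo A).card :=
        Finset.card_image_of_injOn (fun x hx y hy h => hinj x (hloS hx) y (hloS hy) h)
      have hch : ((hi A).image e).card = (hi A).card :=
        Finset.card_image_of_injOn (fun x hx y hy h => hinj x (hhiS hx) y (hhiS hy) h)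
      have hl1 := Finset.card_pos.2 hl
      have hh1 := Finset.card_pos.2 hh
      have hsum := card_lo_add_card_hi A
      have hins : insert (top A - 1) H ⊆ U := Finset.insert_subset htU hH
      have htop' : top (A.image e) - 1 = η (top A - 1) := by omega
      have i1 := ih (lo A).card (by omega) (lo A) rfl hloS
      have i2 := ih (hi A).card (by omega) (hi A) rfl hhiS
      rw [cod_pos nx _ _ ⟨hl', hh'⟩, cod_pos nx H A ⟨hl, hh⟩, htop', hlo, hhi, hcl, hch]
      have him : insert (η (top A - 1)) (H.image η) = (insert (top A - 1) H).image η := by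
        rw [Finset.image_insert]
      rw [him, i2 _ hins, i1 _ hins, hnx H hH]
      have j1 := i1 ∅ (Finset.empty_subset _)
      have j2 := i2 ∅ (Finset.empty_subset _)
      rw [Finset.image_empty] at j1 j2
      rw [j1, j2]
    · have h1 := hSp.2.1 A (by omega)
      have h2 := hSp.2.1 (A.image e) (by omega)
      rw [cod_neg nx H A h1, cod_neg nx _ _ h2, hcard, hnx H hH]

end relabel

/-! ### Order embeddings -/

theorem exists_map {m : ℕ} (U V : Finset ℕ) (hU : U.card = m) (hV : V.card = m) :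
    ∃ η : ℕ → ℕ, (∀ x ∈ U, ∀ y ∈ U, x < y → η x < η y) ∧
      ∀ i : Fin m, η (U.orderEmbOfFin hU i) = V.orderEmbOfFin hV i := by
  classical
  have hex : ∀ i : Fin m, ∃ j : Fin m, U.orderEmbOfFin hU j = U.orderEmbOfFin hU i :=
    fun i => ⟨i, rfl⟩
  let η : ℕ → ℕ := fun x => if h : ∃ j : Fin m, U.orderEmbOfFin hU j = x then
    V.orderEmbOfFin hV h.choose else 0
  have hη : ∀ i : Fin m, η (U.orderEmbOfFin hU i) = V.orderEmbOfFin hV i := by
    intro i
    have h1 : η (U.orderEmbOfFin hU i) = V.orderEmbOfFin hV (hex i).choose := dif_pos (hex i)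
    rw [h1]
    have h2 := (hex i).choose_spec
    rw [(U.orderEmbOfFin hU).injective h2]
  refine ⟨η, ?_, hη⟩
  have hsurj : ∀ x ∈ U, ∃ j : Fin m, U.orderEmbOfFin hU j = x := by
    intro x hx
    have : x ∈ Set.range (U.orderEmbOfFin hU) := by
      rw [Finset.range_orderEmbOfFin]
      exact hx
    exact this
  intro x hx y hy hxy
  obtain ⟨i, rfl⟩ := hsurj x hx
  obtain ⟨j, rfl⟩ := hsurj y hy
  rw [hη, hη]
  have h1 : i < j := (U.orderEmbOfFin hU).lt_iff_lt.1 hxy
  exact (V.orderEmbOfFin hV).lt_iff_lt.2 h1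

/-- the rank -/
def rk (U : Finset ℕ) (u : ℕ) : ℕ := (U.filter (fun z => z < u)).card

theorem rk_le (U : Finset ℕ) (u : ℕ) : rk U u ≤ U.card := Finset.card_filter_le _ _

theorem rk_emb {m : ℕ} (U : Finset ℕ) (hU : U.card = m) (i : Fin m) :
    rk U (U.orderEmbOfFin hU i) = i := by
  have h : U.filter (fun z => z < U.orderEmbOfFin hU i) =
      (Finset.Iio i).map (U.orderEmbOfFin hU).toEmbedding := by
    ext z
    simp only [Finset.mem_filter, Finset.mem_map, Finset.mem_Iio, RelEmbedding.coe_toEmbedding]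
    constructor
    · rintro ⟨hz, h1⟩
      have : z ∈ Set.range (U.orderEmbOfFin hU) := by
        rw [Finset.range_orderEmbOfFin]
        exact hz
      obtain ⟨j, rfl⟩ := this
      exact ⟨j, (U.orderEmbOfFin hU).lt_iff_lt.1 h1, rfl⟩
    · rintro ⟨j, hj, rfl⟩
      exact ⟨Finset.orderEmbOfFin_mem U hU j, (U.orderEmbOfFin hU).lt_iff_lt.2 hj⟩
  unfold rk
  rw [h, Finset.card_map, Fin.card_Iio]

theorem emb_of_rk {m : ℕ} (U V : Finset ℕ) (hU : U.card = m) (hV : V.card = m) (η : ℕ → ℕ)
    (hη : ∀ i : Fin m, η (U.orderEmbOfFin hU i) = V.orderEmbOfFin hV i) {u v : ℕ} (hu : u ∈ U)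
    (hv : v ∈ V) (h : rk U u = rk V v) : v = η u := by
  have h1 : u ∈ Set.range (U.orderEmbOfFin hU) := by
    rw [Finset.range_orderEmbOfFin]
    exact hu
  have h2 : v ∈ Set.range (V.orderEmbOfFin hV) := by
    rw [Finset.range_orderEmbOfFin]
    exact hv
  obtain ⟨i, rfl⟩ := h1
  obtain ⟨j, rfl⟩ := h2
  rw [rk_emb, rk_emb] at h
  rw [hη, Fin.ext h]

theorem map_image {m : ℕ} (U V : Finset ℕ) (hU : U.card = m) (hV : V.card = m) (η : ℕ → ℕ)
    (hη : ∀ i : Fin m, η (U.orderEmbOfFin hU i) = V.orderEmbOfFin hV i) (I : Finset (Fin m)) :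
    (I.map (U.orderEmbOfFin hU).toEmbedding).image η =
      I.map (V.orderEmbOfFin hV).toEmbedding := by
  ext z
  simp only [Finset.mem_image, Finset.mem_map, RelEmbedding.coe_toEmbedding]
  constructor
  · rintro ⟨_, ⟨i, hi, rfl⟩, rfl⟩
    exact ⟨i, hi, (hη i).symm⟩
  · rintro ⟨i, hi, rfl⟩
    exact ⟨_, ⟨i, hi, rfl⟩, hη i⟩

theorem exists_preimage {m : ℕ} (U : Finset ℕ) (hU : U.card = m) (L : Finset ℕ) (hL : L ⊆ U) :
    ∃ I : Finset (Fin m), I.map (U.orderEmbOfFin hU).toEmbedding = L := by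
  refine ⟨Finset.univ.filter (fun i => U.orderEmbOfFin hU i ∈ L), ?_⟩
  ext z
  simp only [Finset.mem_map, Finset.mem_filter, Finset.mem_univ, true_and,
    RelEmbedding.coe_toEmbedding]
  constructor
  · rintro ⟨i, hi, rfl⟩
    exact hi
  · intro hz
    have h1 : z ∈ Set.range (U.orderEmbOfFin hU) := by
      rw [Finset.range_orderEmbOfFin]
      exact hL hz
    obtain ⟨i, rfl⟩ := h1
    exact ⟨i, hz, rfl⟩

/-- the pattern of a set -/
def psi (h n : ℕ) (S : Finset ℕ) (hS : S.card = n) : Finset (Fin n) → ℕ :=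
  fun I => clev h (I.map (S.orderEmbOfFin hS).toEmbedding)

/-- the data which determine the pattern -/
def Rel (h n : ℕ) (S : Finset ℕ) (hS : S.card = n) (m : ℕ) (ρ : Fin n × Fin n → Fin (n + 1))
    (φ : Finset (Fin m) → ℕ) : Prop :=
  ∃ hU : (hts S).card = m,
    (∀ p : Fin n × Fin n, (ρ p : ℕ) =
      rk (hts S) (dst (S.orderEmbOfFin hS p.1) (S.orderEmbOfFin hS p.2) - 1)) ∧
    φ = psi h m (hts S) hU

theorem determined (hB : T_Bits) (hSp : T_Split) (h n : ℕ) (S T : Finset ℕ) (hS : S.card = n)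
    (hT : T.card = n) (m : ℕ) (ρ : Fin n × Fin n → Fin (n + 1)) (φ : Finset (Fin m) → ℕ)
    (h1 : Rel h n S hS m ρ φ) (h2 : Rel h n T hT m ρ φ) :
    psi (h + 1) n S hS = psi (h + 1) n T hT := by
  obtain ⟨hU, hρ, hφ⟩ := h1
  obtain ⟨hV, hρ', hφ'⟩ := h2
  obtain ⟨e, he1, he2⟩ := exists_map S T hS hT
  obtain ⟨η, hη1, hη2⟩ := exists_map (hts S) (hts T) hU hV
  have hnx : ∀ L : Finset ℕ, L ⊆ hts S → clev h (L.image η) = clev h L := by
    intro L hL
    obtain ⟨I, rfl⟩ := exists_preimage (hts S) hU L hL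
    rw [map_image (hts S) (hts T) hU hV η hη2 I]
    have h3 := congrFun (hφ.symm.trans hφ') I
    exact h3.symm
  have hd : ∀ x ∈ S, ∀ y ∈ S, x ≠ y →
      dst x y - 1 ∈ hts S ∧ dst (e x) (e y) - 1 = η (dst x y - 1) := by
    intro x hx y hy hxy
    have m1 : dst x y - 1 ∈ hts S := (mem_hts _ _).2 ⟨x, hx, y, hy, hxy, rfl⟩
    refine ⟨m1, ?_⟩
    have h3 : x ∈ Set.range (S.orderEmbOfFin hS) := by
      rw [Finset.range_orderEmbOfFin]
      exact hx
    have h4 : y ∈ Set.range (S.orderEmbOfFin hS) := by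
      rw [Finset.range_orderEmbOfFin]
      exact hy
    obtain ⟨i, rfl⟩ := h3
    obtain ⟨j, rfl⟩ := h4
    have hij : i ≠ j := fun h => hxy (by rw [h])
    rw [he2, he2]
    have m2 : dst (T.orderEmbOfFin hT i) (T.orderEmbOfFin hT j) - 1 ∈ hts T :=
      (mem_hts _ _).2 ⟨_, Finset.orderEmbOfFin_mem T hT i, _, Finset.orderEmbOfFin_mem T hT j,
        fun h => hij ((T.orderEmbOfFin hT).injective h), rfl⟩
    refine emb_of_rk (hts S) (hts T) hU hV η hη2 m1 m2 ?_
    rw [← hρ (i, j), ← hρ' (i, j)]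
  funext I
  unfold psi
  have hsub : I.map (S.orderEmbOfFin hS).toEmbedding ⊆ S := by
    intro z hz
    simp only [Finset.mem_map, RelEmbedding.coe_toEmbedding] at hz
    obtain ⟨i, _, rfl⟩ := hz
    exact Finset.orderEmbOfFin_mem S hS i
  have h5 := relabel S (hts S) e η hB hSp (clev h) he1 hη1 hd hnx _
    (I.map (S.orderEmbOfFin hS).toEmbedding) rfl hsub ∅ (Finset.empty_subset _)
  rw [Finset.image_empty, map_image S T hS hT e he2 I] at h5
  simp only [clev]
  rw [h5, Finset.card_map, Finset.card_map]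

theorem exists_rel (hB : T_Bits) (hSp : T_Split) (h n : ℕ) (S : Finset ℕ) (hS : S.card = n) :
    ∃ ρ : Fin n × Fin n → Fin (n + 1), Rel h n S hS (hts S).card ρ (psi h _ (hts S) rfl) := by
  have hc := hts_card hB hSp n S hS
  refine ⟨fun p => ⟨rk (hts S) (dst (S.orderEmbOfFin hS p.1) (S.orderEmbOfFin hS p.2) - 1), ?_⟩,
    rfl, fun p => rfl, rfl⟩
  have := rk_le (hts S) (dst (S.orderEmbOfFin hS p.1) (S.orderEmbOfFin hS p.2) - 1)
  omega

theorem done : T_Bits → T_Split → T_Pat := by
  classical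
  intro hB hSp n h
  induction h generalizing n with
  | zero =>
    refine ⟨{fun I => I.card}, by simp, fun S hS => ?_⟩
    rw [Finset.mem_singleton]
    funext I
    simp [clev]
  | succ h ih =>
    choose Φ hΦ1 hΦ2 using ih
    let D : Finset (Σ m : Fin (n + 1), (Fin n × Fin n → Fin (n + 1)) × (Finset (Fin m) → ℕ)) :=
      Finset.univ.sigma fun m => Finset.univ ×ˢ Φ m
    let F : (Σ m : Fin (n + 1), (Fin n × Fin n → Fin (n + 1)) × (Finset (Fin m) → ℕ)) →
        (Finset (Fin n) → ℕ) := fun d =>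
      if hd : ∃ S : Finset ℕ, ∃ hS : S.card = n, Rel h n S hS d.1 d.2.1 d.2.2 then
        psi (h + 1) n hd.choose hd.choose_spec.choose else fun _ => 0
    refine ⟨D.image F, ?_, ?_⟩
    · refine Finset.card_image_le.trans ?_
      rw [Finset.card_sigma]
      have hb : ∀ m : Fin (n + 1), ((Finset.univ : Finset (Fin n × Fin n → Fin (n + 1))) ×ˢ
          Φ m).card ≤ (n + 1) ^ (n ^ 2) * ((n + 1) ^ (n ^ 2 + 1)) ^ h := by
        intro m
        rw [Finset.card_product, Finset.card_univ, Fintype.card_fun, Fintype.card_prod,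
          Fintype.card_fin, Fintype.card_fin]
        have hm : (m : ℕ) ≤ n := by
          have := m.2
          omega
        have h1 : (Φ m).card ≤ ((n + 1) ^ (n ^ 2 + 1)) ^ h := by
          refine (hΦ1 m).trans (Nat.pow_le_pow_left ?_ h)
          have h2 : ((m : ℕ) + 1) ^ ((m : ℕ) ^ 2 + 1) ≤ (n + 1) ^ ((m : ℕ) ^ 2 + 1) :=
            Nat.pow_le_pow_left (by omega) _
          refine h2.trans (Nat.pow_le_pow_right (by omega) ?_)
          have h3 := Nat.pow_le_pow_left hm 2
          omega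
        have h4 : (n + 1) ^ (n * n) = (n + 1) ^ (n ^ 2) := by rw [pow_two]
        rw [h4]
        exact Nat.mul_le_mul_left _ h1
      refine (Finset.sum_le_sum fun m _ => hb m).trans ?_
      rw [Finset.sum_const, Finset.card_univ, Fintype.card_fin, smul_eq_mul, ← mul_assoc]
      have h5 : (n + 1) * (n + 1) ^ (n ^ 2) = (n + 1) ^ (n ^ 2 + 1) := by
        rw [pow_succ]
        ring
      rw [h5, pow_succ ((n + 1) ^ (n ^ 2 + 1)) h, mul_comm]
    · intro S hS
      obtain ⟨ρ, hρ⟩ := exists_rel hB hSp h n S hS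
      have hc := hts_card hB hSp n S hS
      have hm : (hts S).card < n + 1 := by omega
      have hin : (⟨⟨(hts S).card, hm⟩, (ρ, psi h _ (hts S) rfl)⟩ :
          Σ m : Fin (n + 1), (Fin n × Fin n → Fin (n + 1)) × (Finset (Fin m) → ℕ)) ∈ D := by
        rw [Finset.mem_sigma]
        refine ⟨Finset.mem_univ _, ?_⟩
        rw [Finset.mem_product]
        exact ⟨Finset.mem_univ _, hΦ2 _ (hts S) rfl⟩
      refine Finset.mem_image.2 ⟨_, hin, ?_⟩
      have hex : ∃ S' : Finset ℕ, ∃ hS' : S'.card = n,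
          Rel h n S' hS' (hts S).card ρ (psi h _ (hts S) rfl) := ⟨S, hS, hρ⟩
      have h6 : F ⟨⟨(hts S).card, hm⟩, (ρ, psi h _ (hts S) rfl)⟩ =
          psi (h + 1) n hex.choose hex.choose_spec.choose := dif_pos hex
      rw [h6]
      exact determined hB hSp h n _ S _ hS _ ρ _ hex.choose_spec.choose_spec hρ

end Pool.Agent.W509.LD
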